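import Pool.Agent.Helper37.LTX.Defs

/-!
# Liouville fields and maximal tori of the graded ring: definitions
-/

set_option autoImplicit false

namespace Pool.Agent.Helper88.LTA

open IsLocalRing Pool.Agent.Helper11.SY Pool.Agent.Helper37.LTX

variable {R : Type} [CommRing R] [Algebra ℂ R] [IsLocalRing R]

/-- The eigenvalues `μ` of the derivation `E₀` of `gr_w R` induced by `E` in degree `r` satisfy
`φ μ = r`: the Reeb field lies in the Lie algebra of the torus generated by `E₀`. -/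
def AddEig (w : CVal R) (E : Derivation ℂ R R) (φ : ℂ →+ ℝ) : Prop :=
  ∀ (f : R) (r : ℝ) (μ : ℂ), w.v f = (r : WithTop ℝ) → w.v f < w.v (E f - μ • f) → φ μ = r

/-- Every diagonalizable derivation of degree `0` of `gr_w R` which commutes with `E₀` and `L` is
multiplication by `φ μ` on the eigenvectors of `E₀` with eigenvalue `μ`, for an additive map `φ`: it lies
in the Lie algebra of the torus generated by `E₀`. So this torus is maximal among those which preserve
the grading and commute with `L`. -/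
def MaxTorus (w : CVal R) (E : Derivation ℂ R R) (L : Set (R ≃ₐ[ℂ] R)) : Prop :=
  ∀ T : ℝ → R →ₗ[ℂ] R, GrDer w T →
    (∀ (r : ℝ) x, (r : WithTop ℝ) ≤ w.v x → x ∈ Submodule.span ℂ
      {y | (r : WithTop ℝ) ≤ w.v y ∧ ∃ μ : ℂ, (r : WithTop ℝ) < w.v (T r y - μ • y)}) →
    (∀ (r : ℝ) x, (r : WithTop ℝ) ≤ w.v x → (r : WithTop ℝ) < w.v (T r (E x) - E (T r x))) →
    (∀ σ ∈ L, ∀ (r : ℝ) x, (r : WithTop ℝ) ≤ w.v x →
      (r : WithTop ℝ) < w.v (T r (σ x) - σ (T r x))) →
    ∃ φ : ℂ →+ ℂ, ∀ (f : R) (r : ℝ) (μ : ℂ), w.v f = (r : WithTop ℝ) →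
      w.v f < w.v (E f - μ • f) → w.v f < w.v (T r f - φ μ • f)

end Pool.Agent.Helper88.LTA
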