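import Pool.Agent.Helper88.LTA.Defs
import Pool.Agent.Helper20.LT.Main
import Pool.Agent.Helper37.LTX.Main

/-!
# Liouville fields and maximal tori of the graded ring
-/

set_option autoImplicit false

namespace Pool.Agent.Helper88.LTA

open IsLocalRing Pool.Agent.Helper11.SY
open Pool.Agent.Helper20.LT (TE TE_apply val_TE GenI decomp gen_br th_pow tuple exists_notMem
  chevalley mem_idl br_pow der_pow sum_gt dsum exists_nonzero)

noncomputable section

variable {R : Type} [CommRing R] [Algebra ℂ R] [IsLocalRing R]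

theorem lead {w : CVal R} {E : Derivation ℂ R R} (hE : ∀ f, w.v f ≤ w.v (E f)) {φ : ℂ →+ ℝ}
    (hc : AddEig w E φ) {μ : ℂ} {r : ℝ} (N : ℕ) {x : R} (hx : w.v x = (r : WithTop ℝ))
    (h : (r : WithTop ℝ) < w.v ((TE E μ ^ N) x)) : φ μ = r := by
  induction N generalizing x with
  | zero =>
    rw [pow_zero, Module.End.one_apply, hx] at h
    exact absurd h (lt_irrefl _)
  | succ N ih =>
    by_cases h1 : w.v x < w.v (TE E μ x)
    · exact hc x r μ hx h1
    · have h2 : w.v (TE E μ x) = (r : WithTop ℝ) := by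
        rw [← hx]
        exact le_antisymm (not_lt.1 h1) (val_TE hE μ x)
      refine ih h2 ?_
      rwa [pow_succ, Module.End.mul_apply] at h

theorem gen_lead {w : CVal R} {E : Derivation ℂ R R} (hE : ∀ f, w.v f ≤ w.v (E f)) {φ : ℂ →+ ℝ}
    (hc : AddEig w E φ) {I : Ideal R} {ρ : ℝ} (hI : I ≤ w.idl ρ) {μ : ℂ} {x : R}
    (hx : GenI E I μ x) {r : ℝ} (hr : w.v x = (r : WithTop ℝ)) (hrρ : r < ρ) : φ μ = r := by
  obtain ⟨N, hN⟩ := hx
  refine lead hE hc N hr (lt_of_lt_of_le (WithTop.coe_lt_coe.2 hrρ) ?_)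
  exact hI hN

/-- the constant -/
theorem const_le [IsDomain R] [IsNoetherianRing R] [IsAdicComplete (maximalIdeal R) R]
    (hres : ∀ f : R, ∃ c : ℂ, f - algebraMap ℂ R c ∈ maximalIdeal R) {n : ℕ} {S : Symp R n}
    {w : CVal R} {A : ℝ} (hd : LogDisc S w A) (hm : ∃ f ∈ maximalIdeal R, f ≠ 0)
    {E : Derivation ℂ R R} (hE : ∀ f, w.v f ≤ w.v (E f))
    (hEm : ∀ f ∈ maximalIdeal R, E f ∈ maximalIdeal R)
    (hL : Pool.Agent.Helper20.LT.Liouville S E) {φ : ℂ →+ ℝ}
    (hc : AddEig w E φ) : n * φ 1 ≤ A := by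
  obtain ⟨f0, hf0, hf00⟩ := hm
  obtain ⟨g, -, -, hg0, -⟩ := hd.eq f0 hf0 hf00
  obtain ⟨k, hk⟩ := exists_notMem hg0
  obtain ⟨ρ1, hρ1⟩ := chevalley hres w k
  obtain ⟨ρ2, hρ2⟩ := chevalley hres w (k + 1)
  obtain ⟨k2, hk2⟩ := pow_le_idl w (2 * ρ1)
  obtain ⟨K2, hK2⟩ := pow_le_idl w ρ2
  set K := max (max (k + 1) (k2 + 1)) K2 with hK
  obtain ⟨f, μ, hf, hfk⟩ := tuple (w := w) hres hE hEm (K := K)
    ((le_max_left _ _).trans (le_max_left _ _)) g hk
  have hth0 : S.th f ≠ 0 := fun h0 => hfk (by rw [h0]; exact Ideal.zero_mem _)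
  obtain ⟨t, ht⟩ := real_val w hth0
  have htρ : t < ρ1 := by
    by_contra hcon
    exact hfk (hρ1 _ (by rw [ht, WithTop.coe_le_coe]; exact not_lt.1 hcon))
  have hfi : ∀ i, f i ∉ maximalIdeal R ^ (k + 1) := fun i hi => hfk (th_pow S k f i hi)
  have hfi0 : ∀ i, f i ≠ 0 := fun i h0 => hfi i (by rw [h0]; exact Ideal.zero_mem _)
  choose r hr using fun i => real_val w (hfi0 i)
  have hrρ : ∀ i, r i < ρ2 := by
    intro i
    by_contra hcon
    exact hfi i (hρ2 _ (by rw [hr, WithTop.coe_le_coe]; exact not_lt.1 hcon))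
  have hμ : ∀ i, φ (μ i) = r i := fun i =>
    gen_lead hE hc ((Ideal.pow_le_pow_right (le_max_right _ _)).trans hK2) (hf i) (hr i) (hrρ i)
  -- the determinant
  have hdet : GenI E (maximalIdeal R ^ k2) (2 * ∑ i, μ i + (2 * n : ℕ) * (-1))
      (Matrix.of fun i j => S.br (f i) (f j)).det := by
    refine GenI.det (pow_stable E hEm k2) _ μ (-1) fun i j => ?_
    have h1 : ∀ i, GenI E (maximalIdeal R ^ (k2 + 1)) (μ i) (f i) := fun i =>
      (hf i).mono (Ideal.pow_le_pow_right ((le_max_right _ _).trans (le_max_left _ _)))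
    exact gen_br hL hEm (h1 i) (h1 j)
  have hdv : w.v (Matrix.of fun i j => S.br (f i) (f j)).det = ((2 * t : ℝ) : WithTop ℝ) := by
    rw [← S.sq, w.v.map_pow, ht, two_nsmul, ← WithTop.coe_add]
    congr 1
    ring
  have h2 := gen_lead hE hc hk2 hdet hdv (by linarith)
  have h3 : (2 * ∑ i, μ i + (2 * n : ℕ) * (-1) : ℂ) =
      2 • ∑ i, μ i - (2 * n) • (1 : ℂ) := by
    rw [nsmul_eq_mul, nsmul_eq_mul]
    push_cast
    ring
  rw [h3, map_sub, map_nsmul, map_nsmul, map_sum, Finset.sum_congr rfl fun i _ => hμ i,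
    nsmul_eq_mul, nsmul_eq_mul] at h2
  push_cast at h2
  have h4 := hd.le f
  rw [ht, Finset.sum_congr rfl fun i _ => hr i, ← WithTop.coe_sum, ← WithTop.coe_add,
    WithTop.coe_le_coe] at h4
  linarith

theorem order [IsDomain R] [IsNoetherianRing R] [IsAdicComplete (maximalIdeal R) R]
    (hres : ∀ f : R, ∃ c : ℂ, f - algebraMap ℂ R c ∈ maximalIdeal R) {n : ℕ}
    {S : Symp R n} {w : CVal R} {E : Derivation ℂ R R} (hE : ∀ f, w.v f ≤ w.v (E f))
    (hEm : ∀ f ∈ maximalIdeal R, E f ∈ maximalIdeal R)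
    (hL : Pool.Agent.Helper20.LT.Liouville S E) {φ : ℂ →+ ℝ}
    (hc : AddEig w E φ) : OrderGe S w (φ 1) := by
  intro f g
  by_cases hb0 : S.br f g = 0
  · rw [hb0, w.v.map_zero, top_add]
    exact le_top
  have hf0 : f ≠ 0 := by
    rintro rfl
    apply hb0
    rw [map_zero, Derivation.zero_apply]
  have hg0 : g ≠ 0 := by
    rintro rfl
    exact hb0 (map_zero _)
  obtain ⟨r, hr⟩ := real_val w hf0
  obtain ⟨s, hs⟩ := real_val w hg0
  obtain ⟨t, ht⟩ := real_val w hb0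
  rw [hr, hs, ht, ← WithTop.coe_add, ← WithTop.coe_add, WithTop.coe_le_coe]
  by_contra hcon
  rw [not_le] at hcon
  obtain ⟨k, hk⟩ := pow_le_idl w (t + 1)
  obtain ⟨ρ2, hρ2⟩ := chevalley hres w (k + 1)
  obtain ⟨K2, hK2⟩ := pow_le_idl w ρ2
  set K := max (k + 1) K2 with hK
  have hKk : maximalIdeal R ^ K ≤ maximalIdeal R ^ (k + 1) := Ideal.pow_le_pow_right (le_max_left _ _)
  have hKρ : maximalIdeal R ^ K ≤ w.idl ρ2 := (Ideal.pow_le_pow_right (le_max_right _ _)).trans hK2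
  obtain ⟨m, F, μ, hFr, hFg, hFs⟩ := decomp hres hE hEm K r hr.ge
  obtain ⟨m', G, ν, hGs, hGg, hGs'⟩ := decomp hres hE hEm K s hs.ge
  -- the brackets of the components have valuation greater than `t`
  have hkey : ∀ i j, (t : WithTop ℝ) < w.v (S.br (F i) (G j)) := by
    intro i j
    by_contra hlt
    rw [not_lt] at hlt
    have hy0 : S.br (F i) (G j) ≠ 0 := by
      intro h0
      rw [h0, w.v.map_zero] at hlt
      exact absurd hlt (not_le.2 (WithTop.coe_lt_top t))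
    obtain ⟨y, hy⟩ := real_val w hy0
    rw [hy, WithTop.coe_le_coe] at hlt
    have hyk : S.br (F i) (G j) ∉ maximalIdeal R ^ k := by
      intro h0
      have h1 := hk h0
      rw [mem_idl, hy, WithTop.coe_le_coe] at h1
      linarith
    have hFk : F i ∉ maximalIdeal R ^ (k + 1) := fun h0 => hyk (br_pow S k h0 _)
    have hGk : G j ∉ maximalIdeal R ^ (k + 1) := fun h0 => hyk (der_pow _ (S.br (F i)) k h0)
    obtain ⟨a, ha⟩ := real_val w (f := F i) (fun h0 => hFk (by rw [h0]; exact Ideal.zero_mem _))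
    obtain ⟨b, hb⟩ := real_val w (f := G j) (fun h0 => hGk (by rw [h0]; exact Ideal.zero_mem _))
    have haρ : a < ρ2 := by
      by_contra h0
      exact hFk (hρ2 _ (by rw [ha, WithTop.coe_le_coe]; exact not_lt.1 h0))
    have hbρ : b < ρ2 := by
      by_contra h0
      exact hGk (hρ2 _ (by rw [hb, WithTop.coe_le_coe]; exact not_lt.1 h0))
    have h1 := gen_lead hE hc hKρ (hFg i) ha haρ
    have h2 := gen_lead hE hc hKρ (hGg j) hb hbρ
    have h3 := gen_lead hE hc hk (gen_br hL hEm ((hFg i).mono hKk) ((hGg j).mono hKk)) hy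
      (by linarith)
    have har : r ≤ a := by
      have := hFr i
      rwa [ha, WithTop.coe_le_coe] at this
    have hbs : s ≤ b := by
      have := hGs j
      rwa [hb, WithTop.coe_le_coe] at this
    rw [map_add, map_add, map_neg, h1, h2] at h3
    linarith
  have hsum : S.br f g = ∑ i, ∑ j, S.br (F i) (G j) +
      (S.br (f - ∑ i, F i) g + S.br (∑ i, F i) (g - ∑ j, G j)) := by
    have h1 : ∑ i, ∑ j, S.br (F i) (G j) = S.br (∑ i, F i) (∑ j, G j) := by
      have h0 : S.br (∑ i, F i) = ∑ i, S.br (F i) := map_sum _ _ _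
      rw [h0, dsum]
      exact Finset.sum_congr rfl fun i _ => (map_sum _ _ _).symm
    rw [h1, map_sub, map_sub, Derivation.sub_apply]
    ring
  have hlt : (t : WithTop ℝ) < w.v (S.br f g) := by
    rw [hsum]
    refine w.v.map_lt_add (sum_gt w _ _ fun i _ => sum_gt w _ _ fun j _ => hkey i j) ?_
    refine lt_of_lt_of_le (b := ((t + 1 : ℝ) : WithTop ℝ)) (by
      rw [WithTop.coe_lt_coe]
      linarith) ?_
    refine hk (Ideal.add_mem _ (br_pow S k (hKk hFs) _) ?_)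
    exact der_pow _ (S.br (∑ i, F i)) k (hKk hGs')
  rw [ht] at hlt
  exact lt_irrefl _ hlt

/-- the criterion -/
theorem criterion [IsDomain R] [IsNoetherianRing R] [IsAdicComplete (maximalIdeal R) R]
    (hres : ∀ f : R, ∃ c : ℂ, f - algebraMap ℂ R c ∈ maximalIdeal R) {n : ℕ}
    (hn : 1 ≤ n) {S : Symp R n} {w : CVal R} {A : ℝ} (hd : LogDisc S w A)
    (hm : ∃ f ∈ maximalIdeal R, f ≠ 0) {E : Derivation ℂ R R} (hE : ∀ f, w.v f ≤ w.v (E f))
    (hEm : ∀ f ∈ maximalIdeal R, E f ∈ maximalIdeal R)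
    (hL : Pool.Agent.Helper20.LT.Liouville S E) {φ : ℂ →+ ℝ}
    (hc : AddEig w E φ) : φ 1 = A / n ∧ OrderGe S w (A / n) := by
  have h1 := const_le hres hd hm hE hEm hL hc
  have hord := order hres hE hEm hL hc
  have hn0 : (0 : ℝ) < n := by exact_mod_cast hn
  have hAδ : A / n ≤ φ 1 := by
    obtain ⟨f, g, hfg, hlt⟩ := order_le hn hd hm
    have h1 := hlt.trans (hord f g)
    obtain ⟨y, hy⟩ := real_val w hfg
    rw [hy, ← WithTop.coe_add, ← WithTop.coe_add, WithTop.coe_le_coe] at h1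
    linarith
  have h2 : φ 1 = A / n := le_antisymm (by rw [le_div_iff₀ hn0]; linarith) hAδ
  refine ⟨h2, ?_⟩
  rw [← h2]
  exact hord

/-- maximal tori -/
theorem addEig_of_maxTorus {w : CVal R} {E : Derivation ℂ R R} {L : Set (R ≃ₐ[ℂ] R)}
    (h : MaxTorus w E L) : ∃ φ : ℂ →+ ℝ, AddEig w E φ := by
  let T : ℝ → R →ₗ[ℂ] R := fun r => (r : ℂ) • LinearMap.id
  have hT : ∀ r x, T r x = (r : ℂ) • x := fun r x => rfl
  have hsm : ∀ (c : ℂ) (x : R), w.v x ≤ w.v (c • x) := fun c x =>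
    Pool.Agent.Helper20.LT.val_smul w c x
  have hG : Pool.Agent.Helper37.LTX.GrDer w T := by
    refine ⟨fun r x hx => hx.trans (hsm _ _), fun r x hx => lt_of_lt_of_le hx (hsm _ _),
      fun r s x y hx hy => ?_⟩
    have h0 : T (r + s) (x * y) - (T r x * y + x * T s y) = 0 := by
      rw [hT, hT, hT, smul_mul_assoc, mul_smul_comm, ← add_smul]
      push_cast
      rw [sub_self]
    rw [h0, w.v.map_zero]
    exact WithTop.coe_lt_top _
  obtain ⟨φ, hφ⟩ := h T hG (fun r x hx => Submodule.subset_span ⟨hx, (r : ℂ), by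
      rw [hT, sub_self, w.v.map_zero]
      exact WithTop.coe_lt_top _⟩) (fun r x hx => by
      rw [hT, hT, Derivation.map_smul, sub_self, w.v.map_zero]
      exact WithTop.coe_lt_top _) (fun σ _ r x hx => by
      rw [hT, hT, map_smul, sub_self, w.v.map_zero]
      exact WithTop.coe_lt_top _)
  refine ⟨Complex.reAddGroupHom.comp φ, fun f r μ hf hμ => ?_⟩
  have h1 := hφ f r μ hf hμ
  rw [hT, ← sub_smul] at h1
  have h2 : (r : ℂ) - φ μ = 0 := by
    by_contra h0
    have h3 : w.v f = w.v (((r : ℂ) - φ μ) • f) := by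
      refine le_antisymm (hsm _ _) ?_
      have h4 := hsm ((r : ℂ) - φ μ)⁻¹ (((r : ℂ) - φ μ) • f)
      rwa [smul_smul, inv_mul_cancel₀ h0, one_smul] at h4
    rw [← h3] at h1
    exact lt_irrefl _ h1
  have h3 : φ μ = (r : ℂ) := (sub_eq_zero.1 h2).symm
  show (φ μ).re = r
  rw [h3, Complex.ofReal_re]

end

end Pool.Agent.Helper88.LTA
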