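import Pool.Agent.Helper88.LTA.Lem

/-!
# Liouville fields and maximal tori of the graded ring: the theorem
-/

set_option autoImplicit false

namespace Pool.Agent.Helper88.LTA

open IsLocalRing Pool.Agent.Helper11.SY Pool.Agent.Helper37.LTX

theorem main {R : Type} [CommRing R] [Algebra ℂ R] [IsDomain R] [IsLocalRing R]
    [IsNoetherianRing R] [IsAdicComplete (maximalIdeal R) R]
    (hres : ∀ f : R, ∃ c : ℂ, f - algebraMap ℂ R c ∈ maximalIdeal R)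
    {n : ℕ} (hn : 1 ≤ n) (hdim : ringKrullDim R = ((2 * n : ℕ) : WithBot ℕ∞))
    (S : Symp R n) (w : CVal R) (A : ℝ) (hw : IsMinimizer S w A)
    (E : Derivation ℂ R R) (hEm : ∀ f ∈ maximalIdeal R, E f ∈ maximalIdeal R)
    (hL : Liouville S E) :
    (∀ φ : ℂ →+ ℝ, AddEig w E φ → φ 1 = A / n ∧ OrderGe S w (A / n)) ∧
    (∀ L : Set (R ≃ₐ[ℂ] R), MaxTorus w E L → OrderGe S w (A / n)) ∧
    (∀ c : ℂ, SingleEig w E c → c = n / A ∧ OrderGe S w (A / n) ∧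
      ∃ G : ℝ → Submodule ℂ R, Conical S w (A / n) G) ∧
    (∀ L : Set (R ≃ₐ[ℂ] R), (∀ σ ∈ L, ∀ f, E (σ f) = σ (E f)) → RankOne w L →
      SingleEig w E (n / A)) := by
  obtain ⟨m1, m2⟩ := Pool.Agent.Helper37.LTX.main hres hn hdim S w A hw E hEm hL
  have hm := Pool.Agent.Helper20.LT.exists_nonzero hn hdim
  have hE : ∀ f, w.v f ≤ w.v (E f) := fun f =>
    der_val hres w (fun σ f => inv_aut hw hm σ f) E hEm f
  have h1 : ∀ φ : ℂ →+ ℝ, AddEig w E φ → φ 1 = A / n ∧ OrderGe S w (A / n) := fun φ hφ =>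
    criterion hres hn hw.disc hm hE hEm hL hφ
  refine ⟨h1, fun L hL' => ?_, m1, fun L hc hr => (m2 L hc hr).1⟩
  obtain ⟨φ, hφ⟩ := addEig_of_maxTorus hL'
  exact (h1 φ hφ).2

end Pool.Agent.Helper88.LTA
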